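import Pool.Agent.E8helper14.DL.Gen
import Pool.Agent.E8helper66.ND.Del
import Pool.Agent.E8helper66.ND.Hal2

/-! # The discriminant -/

set_option autoImplicit false
set_option linter.unusedSectionVars false

namespace Pool.Agent.E8helper14.DL

open MeasureTheory Set Filter Topology Complex
open scoped ComplexConjugate
open Pool.Agent.E8helper14.LI
open Pool.Agent.W355.UN (Conv)
open Pool.Agent.TH839.NA (RawT pw)
open Pool.Agent.Y23.G (LFun)
open Pool.Agent.E8helper66.ND (Ld ld Fd lf_delta Ld_fe Fd_zero LF)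
open Pool.Agent.E8helper66.ML (ps)
open Pool.Agent.Y771.NF (newf_delta heckeSeq p_rs)
open Pool.Agent.W97.TW (deltaForm)

open Classical in
/-- the traces -/
noncomputable def cD (n : ℕ) : ℝ := if IsPrimePow n then W388.cS 1 ld n else 0

lemma conv_D : Conv (fun n => (ld n : ℂ)) (fun n => (cD n : ℂ)) := by
  intro n hn
  have h := Pool.Agent.W482.TW.t_id1 1 ld (heckeSeq (N := 1) (k := 12) newf_delta) n hn
  have h2 : ld n * Real.log n = ∑ d ∈ n.divisors, ArithmeticFunction.vonMangoldt d * cD d * ld (n / d) := by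
    rw [h]
    refine Finset.sum_congr rfl fun d _ => ?_
    unfold cD
    split_ifs with hd
    · rfl
    · rw [ArithmeticFunction.vonMangoldt_eq_zero_iff.2 hd]
      simp
  have h3 := congrArg (fun x : ℝ => (x : ℂ)) h2
  push_cast at h3
  simpa using h3

/-- the traces at prime powers -/
lemma cD_pow (p : Nat.Primes) (j : ℕ) : cD ((p : ℕ) ^ (j + 1)) = ps (ld p) 1 (j + 1) := by
  obtain ⟨th, H⟩ := lf_delta
  unfold cD
  rw [if_pos (p.2.isPrimePow.pow (Nat.succ_ne_zero j))]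
  rcases j with _ | j
  · show W388.cS 1 ld ((p : ℕ) ^ 1) = ld p
    rw [pow_one]
    unfold W388.cS
    rw [if_neg, sub_zero]
    rintro ⟨h1, -⟩
    rw [p.2.minFac_eq] at h1
    have h2 := Nat.le_of_dvd p.2.pos h1
    have h3 := p.2.one_lt
    nlinarith
  · exact H.cS_pow p j

lemma cD_le (n : ℕ) : ‖((cD n : ℝ) : ℂ)‖ ≤ (2 : ℕ) * (n : ℝ) ^ (1 / 2 : ℝ) := by
  rw [Complex.norm_real, Real.norm_eq_abs]
  by_cases h : IsPrimePow n
  · obtain ⟨p, k, hp, hk, rfl⟩ := (isPrimePow_nat_iff n).1 h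
    obtain ⟨j, rfl⟩ : ∃ j, k = j + 1 := ⟨k - 1, by omega⟩
    obtain ⟨th, H⟩ := lf_delta
    have h1 := cD_pow ⟨p, hp⟩ j
    have h1' : cD (p ^ (j + 1)) = ps (ld p) 1 (j + 1) := h1
    rw [h1']
    have h2 : |ps (ld p) 1 (j + 1)| ≤ 2 * (((p : ℕ) : ℝ) ^ th) ^ (j + 1) := (H.ps_le2 ⟨p, hp⟩).1 (j + 1)
    refine h2.trans ?_
    have hp1 : (1 : ℝ) ≤ p := by exact_mod_cast hp.one_lt.le
    have h3 : (((p : ℕ) : ℝ) ^ th) ^ (j + 1) ≤ ((p ^ (j + 1) : ℕ) : ℝ) ^ (1 / 2 : ℝ) := by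
      rw [Nat.cast_pow, ← Real.rpow_natCast (p : ℝ) (j + 1), ← Real.rpow_mul (by linarith), mul_comm ((j + 1 : ℕ) : ℝ),
        Real.rpow_mul (by linarith), Real.rpow_natCast]
      refine pow_le_pow_left₀ (by positivity) ?_ _
      exact Real.rpow_le_rpow_of_exponent_le hp1 H.th1.le
    calc 2 * (((p : ℕ) : ℝ) ^ th) ^ (j + 1) ≤ 2 * ((p ^ (j + 1) : ℕ) : ℝ) ^ (1 / 2 : ℝ) :=
          mul_le_mul_of_nonneg_left h3 (by norm_num)
      _ = _ := by norm_num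
  · unfold cD
    rw [if_neg h, abs_zero]
    positivity

/-- the completed function, centre `1/2` -/
noncomputable def XD (s : ℂ) : ℂ := 2 * Ld (s + 11 / 2)

lemma mellin_cj (f : ℝ → ℂ) (s : ℂ) : conj (mellin f (conj s)) = mellin (fun y => conj (f y)) s := by
  unfold mellin
  rw [← integral_conj]
  refine MeasureTheory.setIntegral_congr_fun measurableSet_Ioi ?_
  intro y hy
  have hy0 : (0 : ℝ) < y := hy
  simp only [smul_eq_mul, map_mul]
  congr 1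
  have h1 : (y : ℂ).arg ≠ Real.pi := by
    rw [Complex.arg_ofReal_of_nonneg hy0.le]
    exact Real.pi_ne_zero.symm
  have h2 : conj s - 1 = conj (s - 1) := by simp
  rw [h2, ← Complex.conj_cpow _ _ h1, Complex.conj_ofReal]

lemma Ld_conj (s : ℂ) : Ld (conj s) = conj (Ld s) := by
  have h := mellin_cj (fun y : ℝ => ((Pool.Agent.H128R3.JD.DelK.Dl y : ℝ) : ℂ)) s
  have h3 : (fun y : ℝ => conj (((Pool.Agent.H128R3.JD.DelK.Dl y : ℝ) : ℂ))) =
      fun y : ℝ => ((Pool.Agent.H128R3.JD.DelK.Dl y : ℝ) : ℂ) := by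
    funext y
    exact Complex.conj_ofReal _
  rw [h3] at h
  have h2 := congrArg conj h
  rw [Complex.conj_conj] at h2
  exact h2

lemma XD_conj (s : ℂ) : XD (conj s) = conj (XD s) := by
  unfold XD
  have e : conj s + 11 / 2 = conj (s + 11 / 2) := by
    rw [map_add]
    congr 1
    have : (11 / 2 : ℂ) = ((11 / 2 : ℝ) : ℂ) := by push_cast; rfl
    rw [this, Complex.conj_ofReal]
  have e2 : conj (2 : ℂ) = 2 := by
    have : (2 : ℂ) = ((2 : ℝ) : ℂ) := by push_cast; rfl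
    rw [this, Complex.conj_ofReal]
  rw [map_mul, ← Ld_conj, e, e2]

lemma XD_fe (s : ℂ) : XD (1 - s) = XD s := by
  unfold XD
  rw [← Ld_fe (s + 11 / 2)]
  congr 2
  ring

lemma Ld_diff : Differentiable ℂ Ld := by
  obtain ⟨B, hB⟩ := Pool.Agent.H128R3.JD.DelHk.isHk
  exact Pool.Agent.H128R3.GJB.mellin_diff hB

lemma XD_diff : Differentiable ℂ XD := by
  have h2 : Differentiable ℂ fun s : ℂ => s + 11 / 2 := by fun_prop
  exact (Ld_diff.comp h2).const_mul 2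

lemma XD_order : ∃ A ρ : ℝ, ∀ s : ℂ, ‖XD s‖ ≤ Real.exp (A * (1 + ‖s‖) ^ ρ) := by
  obtain ⟨B, F, K, hB, hEv⟩ := Pool.Agent.Y22.RX.ev_delta
  have hX1 : ∀ z : ℂ, Pool.Agent.H128R3.GJB.X1 (Pool.Agent.H128R3.JD.DelHk.hk B) z = Ld (6 + z) := by
    intro z
    show mellin (fun y : ℝ => ((Pool.Agent.H128R3.JD.DelK.Dl y : ℝ) : ℂ)) ((((12 : ℝ) / 2 : ℝ) : ℂ) + z) = _
    have h6 : (((12 : ℝ) / 2 : ℝ) : ℂ) = 6 := by
      push_cast
      norm_num
    rw [h6]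
    rfl
  refine ⟨1 + 2 * |K|, 2, fun s => ?_⟩
  have h1 : XD s = 2 * F ((s - 1 / 2) ^ 2) := by
    rw [hEv.sq, hX1]
    unfold XD
    congr 2
    ring
  rw [h1, norm_mul]
  have h2 : ‖(2 : ℂ)‖ ≤ Real.exp 1 := by
    have h3 := Real.add_one_le_exp (1 : ℝ)
    have h4 : ‖(2 : ℂ)‖ = 2 := by simp
    rw [h4]
    linarith
  have h3 : (1 + ‖(s - 1 / 2) ^ 2‖) ^ (3 / 4 : ℝ) ≤ 2 * (1 + ‖s‖) ^ 2 := by
    have h4 : (1 + ‖(s - 1 / 2) ^ 2‖) ^ (3 / 4 : ℝ) ≤ (1 + ‖(s - 1 / 2) ^ 2‖) ^ (1 : ℝ) :=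
      Real.rpow_le_rpow_of_exponent_le (by linarith [norm_nonneg ((s - 1 / 2) ^ 2)]) (by norm_num)
    rw [Real.rpow_one, norm_pow] at h4
    have h5 : ‖s - 1 / 2‖ ≤ 1 + ‖s‖ := by
      refine (norm_sub_le _ _).trans ?_
      have : ‖(1 / 2 : ℂ)‖ ≤ 1 := by norm_num
      linarith
    have h6 : ‖s - 1 / 2‖ ^ 2 ≤ (1 + ‖s‖) ^ 2 := pow_le_pow_left₀ (norm_nonneg _) h5 2
    have h7 : 1 ≤ (1 + ‖s‖) ^ 2 := one_le_pow₀ (by linarith [norm_nonneg s])
    rw [norm_pow]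
    linarith
  have h8 := hEv.grow ((s - 1 / 2) ^ 2)
  calc ‖(2 : ℂ)‖ * ‖F ((s - 1 / 2) ^ 2)‖ ≤ Real.exp 1 * Real.exp (K * (1 + ‖(s - 1 / 2) ^ 2‖) ^ (3 / 4 : ℝ)) :=
        mul_le_mul h2 h8 (norm_nonneg _) (Real.exp_pos _).le
    _ = Real.exp (1 + K * (1 + ‖(s - 1 / 2) ^ 2‖) ^ (3 / 4 : ℝ)) := (Real.exp_add _ _).symm
    _ ≤ _ := by
        refine Real.exp_le_exp.2 ?_
        have h9 : (1 + ‖s‖) ^ (2 : ℝ) = (1 + ‖s‖) ^ 2 := by
          rw [← Real.rpow_natCast]; norm_num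
        rw [h9]
        have h10 : K * (1 + ‖(s - 1 / 2) ^ 2‖) ^ (3 / 4 : ℝ) ≤ |K| * (2 * (1 + ‖s‖) ^ 2) :=
          mul_le_mul (le_abs_self K) h3 (by positivity) (abs_nonneg K)
        have h11 : 1 ≤ (1 + ‖s‖) ^ 2 := one_le_pow₀ (by linarith [norm_nonneg s])
        nlinarith

lemma ld_zero : ld 0 = 0 := (heckeSeq (N := 1) (k := 12) newf_delta).zero

/-- the Dirichlet series -/
lemma dir_D : ∀ s : ℂ, 1 < s.re → (Summable fun n : ℕ => ‖(ld n : ℂ) * (n : ℂ) ^ (-s)‖) ∧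
    ∑' n : ℕ, (ld n : ℂ) * (n : ℂ) ^ (-s) ≠ 0 := by
  have hH := heckeSeq (N := 1) (k := 12) newf_delta
  have hR := p_rs 1 12 (by norm_num) deltaForm 1 newf_delta
  obtain ⟨A, -, -, -, hd⟩ := Pool.Agent.E8helper66.ND.p_dir 1 one_pos ld hH hR
  obtain ⟨hsum, hne, -⟩ := hd 1 1 (fun s => ∑' n : ℕ, (1 : DirichletCharacter ℂ 1) (n : ZMod 1) * (ld n : ℂ) *
    (n : ℂ) ^ (-s)) fun s _ => rfl
  intro s hs
  constructor
  · refine (hsum s hs).congr fun n => ?_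
    rw [Pool.Agent.E8helper66.ND.chi, one_mul]
  · have h := hne s hs
    have e : ∑' n : ℕ, (1 : DirichletCharacter ℂ 1) (n : ZMod 1) * (ld n : ℂ) * (n : ℂ) ^ (-s) =
        ∑' n : ℕ, (ld n : ℂ) * (n : ℂ) ^ (-s) := tsum_congr fun n => by
      rw [Pool.Agent.E8helper66.ND.chi, one_mul]
    rwa [← e]

lemma lser_D (s : ℂ) : LSeries (fun n => (ld n : ℂ)) s = ∑' n : ℕ, (ld n : ℂ) * (n : ℂ) ^ (-s) := by
  unfold LSeries
  refine tsum_congr fun n => ?_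
  rcases Nat.eq_zero_or_pos n with rfl | hn
  · rw [LSeries.term_zero, ld_zero]
    simp
  · rw [LSeries.term_of_ne_zero hn.ne', Complex.cpow_neg, div_eq_mul_inv]

/-- the archimedean parameters -/
noncomputable def aD : Fin 2 → ℂ := ![11 / 2, 13 / 2]

lemma gam_D (s : ℂ) : ∏ j, Gammaℝ (s + aD j) = 2 * (((2 * Real.pi : ℝ) : ℂ) ^ (-(s + 11 / 2)) * Complex.Gamma (s + 11 / 2)) := by
  rw [Fin.prod_univ_two]
  unfold aD
  simp only [Matrix.cons_val_zero, Matrix.cons_val_one]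
  have h0 := Complex.Gammaℝ_mul_Gammaℝ_add_one (s + 11 / 2)
  rw [Complex.Gammaℂ_def] at h0
  have h1 : s + 13 / 2 = s + 11 / 2 + 1 := by ring
  rw [h1, h0]
  push_cast
  ring

lemma XD_eq {s : ℂ} (hs : -(11 / 2) < s.re) : XD s = (∏ j, Gammaℝ (s + aD j)) * Fd s := by
  have hre : (s + 11 / 2 : ℂ).re = s.re + 11 / 2 := by
    norm_num
  have h1 : Complex.Gamma (s + 11 / 2) ≠ 0 := Complex.Gamma_ne_zero_of_re_pos (by rw [hre]; linarith)
  have h2 : (((2 * Real.pi : ℝ) : ℂ)) ^ (s + 11 / 2) ≠ 0 := by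
    rw [Complex.cpow_def_of_ne_zero Pool.Agent.E8helper66.ND.tp_ne]
    exact Complex.exp_ne_zero _
  rw [gam_D]
  unfold XD Fd
  rw [Complex.cpow_neg]
  set G := Complex.Gamma (s + 11 / 2) with hG
  set P := (((2 * Real.pi : ℝ) : ℂ)) ^ (s + 11 / 2) with hP
  calc 2 * Ld (s + 11 / 2) = 2 * Ld (s + 11 / 2) * (P⁻¹ * P) * (G * G⁻¹) := by
        rw [inv_mul_cancel₀ h2, mul_inv_cancel₀ h1]; ring
    _ = _ := by ring

/-- **the raw data** -/
lemma raw_D : RawT (1 / 2) 2 0 1 aD (fun n => (ld n : ℂ)) (fun n => (cD n : ℂ)) XD := by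
  refine ⟨by norm_num, by norm_num, le_rfl, by norm_num, by norm_num, fun j => ?_, XD_diff, XD_order,
    ⟨1, norm_one, fun s => ?_⟩, ?_, cD_le, conv_D, ⟨3, fun s hs => ?_⟩⟩
  · unfold aD
    fin_cases j <;> norm_num
  · rw [one_mul, XD_fe, XD_conj, Complex.conj_conj]
  · have h1 : ld 1 = 1 := (heckeSeq (N := 1) (k := 12) newf_delta).one
    show ((ld 1 : ℝ) : ℂ) = 1
    rw [h1]
    simp
  · rw [pow_zero, one_mul, Complex.ofReal_one, Complex.one_cpow, one_mul, XD_eq (by linarith), lser_D,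
      Pool.Agent.E8helper66.ND.Fd_ser (by linarith) (dir_D s (by linarith)).1.of_norm]

/-- the instance -/
@[reducible] noncomputable def LDel : LFun where
  m := 2
  r := 0
  N := 1
  a := aD
  b := fun n => (ld n : ℂ)
  c := fun n => (cD n : ℂ)
  X := XD
  raw := raw_D
  str := fun j => by
    unfold aD
    fin_cases j <;> norm_num

lemma term_D {s : ℂ} (n : ℕ) : LSeries.term (fun n => (ld n : ℂ)) s n = (ld n : ℂ) * (n : ℂ) ^ (-s) := by
  rcases Nat.eq_zero_or_pos n with rfl | hn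
  · rw [LSeries.term_zero, ld_zero]
    simp
  · rw [LSeries.term_of_ne_zero hn.ne', Complex.cpow_neg, div_eq_mul_inv]

lemma summ_D {s : ℂ} (hs : 1 < s.re) : LSeriesSummable (fun n => (ld n : ℂ)) s := by
  unfold LSeriesSummable
  refine (dir_D s hs).1.of_norm.congr fun n => ?_
  exact (term_D n).symm

lemma Fd_eq {s : ℂ} (hs : 1 < s.re) : Fd s = LSeries (fun n => (ld n : ℂ)) s := by
  have hopen : IsOpen {s : ℂ | 1 < s.re} := isOpen_lt continuous_const Complex.continuous_re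
  have h1 : AnalyticOnNhd ℂ Fd {s : ℂ | 1 < s.re} := fun z _ => Pool.Agent.E8helper66.ND.Fd_diff.analyticAt z
  have habs : LSeries.abscissaOfAbsConv (fun n => (ld n : ℂ)) ≤ 1 := by
    refine LSeries.abscissaOfAbsConv_le_of_forall_lt_LSeriesSummable' fun y hy => ?_
    refine summ_D ?_
    rw [Complex.ofReal_re]
    exact_mod_cast hy
  have h2 : AnalyticOnNhd ℂ (LSeries (fun n => (ld n : ℂ))) {s : ℂ | 1 < s.re} := fun z hz =>
    LSeries_analyticOnNhd _ z (lt_of_le_of_lt habs (by exact_mod_cast hz))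
  have hz0 : ((3 : ℝ) : ℂ) ∈ {s : ℂ | 1 < s.re} := by
    show 1 < (((3 : ℝ) : ℂ)).re
    rw [Complex.ofReal_re]
    norm_num
  refine h1.eqOn_of_preconnected_of_eventuallyEq h2 (convex_halfSpace_re_gt 1).isPreconnected hz0 ?_ hs
  have h3 : ∀ᶠ z : ℂ in 𝓝 ((3 : ℝ) : ℂ), 2 < z.re :=
    (Complex.continuous_re.tendsto _).eventually (lt_mem_nhds (by
      rw [Complex.ofReal_re]
      norm_num))
  filter_upwards [h3] with z hz
  rw [Pool.Agent.E8helper66.ND.Fd_ser hz (dir_D z (by linarith)).1.of_norm, lser_D]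

lemma XD_ne {s : ℂ} (hs : 1 < s.re) : XD s ≠ 0 := by
  rw [XD_eq (by linarith), Fd_eq hs, lser_D, gam_D]
  have hre : (s + 11 / 2 : ℂ).re = s.re + 11 / 2 := by
    norm_num
  have h3 : Complex.Gamma (s + 11 / 2) ≠ 0 := Complex.Gamma_ne_zero_of_re_pos (by rw [hre]; linarith)
  have h2 : (((2 * Real.pi : ℝ) : ℂ)) ^ (-(s + 11 / 2)) ≠ 0 := by
    rw [Complex.cpow_def_of_ne_zero Pool.Agent.E8helper66.ND.tp_ne]
    exact Complex.exp_ne_zero _
  exact mul_ne_zero (mul_ne_zero two_ne_zero (mul_ne_zero h2 h3)) (dir_D s hs).2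

/-- the multiplicities -/
noncomputable def mDel (s : ℂ) : ℕ := analyticOrderNatAt XD s

lemma mX_D : mX (L := LDel) = mDel := rfl

/-- the error term, as a sum over the integers -/
noncomputable def ED (a v : ℝ) : ℝ := -(KG a * ∑' n : ℕ, ArithmeticFunction.vonMangoldt n * cD n * (n : ℝ) ^ (-(1 / 2) : ℝ) *
  gs a (v - Real.log n))

lemma aL_D (n : ℕ) : Pool.Agent.Y23.G.aL (L := LDel) n =
    ((ArithmeticFunction.vonMangoldt n * cD n * (n : ℝ) ^ (-(1 / 2) : ℝ) : ℝ) : ℂ) := by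
  have e : Pool.Agent.Y23.G.aL (L := LDel) n = ((ArithmeticFunction.vonMangoldt n : ℝ) : ℂ) *
      (((cD n : ℝ) : ℂ) * (((n : ℝ) ^ (-(1 / 2) : ℝ) : ℝ) : ℂ)) := rfl
  rw [e]
  push_cast
  ring

lemma sum_D (a v : ℝ) : ∑' n : ℕ, Pool.Agent.Y23.G.aL (L := LDel) n * (gs a (v - Real.log n) : ℂ) =
    ((∑' n : ℕ, ArithmeticFunction.vonMangoldt n * cD n * (n : ℝ) ^ (-(1 / 2) : ℝ) * gs a (v - Real.log n) : ℝ) : ℂ) := by
  rw [Complex.ofReal_tsum]
  refine tsum_congr fun n => ?_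
  rw [aL_D]
  push_cast
  ring

lemma ED_cont {a : ℝ} (ha : 0 < a) : Continuous (ED a) := by
  have h := psum_cont ha (b := Pool.Agent.Y23.G.aL (L := LDel))
    (Pool.Agent.Y23.G.aL_norm (L := LDel))
  have h1 := Complex.continuous_re.comp h
  have h2 : (Complex.re ∘ fun v : ℝ => ∑' n : ℕ, Pool.Agent.Y23.G.aL (L := LDel) n * (gs a (v - Real.log n) : ℂ)) =
      fun v : ℝ => ∑' n : ℕ, ArithmeticFunction.vonMangoldt n * cD n * (n : ℝ) ^ (-(1 / 2) : ℝ) * gs a (v - Real.log n) := by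
    funext v
    simp only [Function.comp]
    rw [sum_D, Complex.ofReal_re]
  rw [h2] at h1
  exact (continuous_const.mul h1).neg

/-- **the discriminant is an instance** -/
theorem gn_D {a : ℝ} (ha : 0 < a) : Gn a mDel (ED a) := by
  refine ⟨fun s hs => ?_, fun s => mX_refl (L := LDel) s, fun s => ?_, fun v => m_summable (L := LDel) ha v, ED_cont ha, ?_⟩
  · by_contra hc
    exact hs (mX_zero (L := LDel) (XD_ne (not_le.1 hc)))
  · unfold mDel analyticOrderNatAt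
    rw [← order_conj (f := XD) (s := s) (XD_diff.analyticAt _)]
    congr 2
    funext z
    rw [XD_conj, Complex.conj_conj]
  · obtain ⟨R, C, h1, h2, h3⟩ := Pool.Agent.E8helper14.LI.ef (L := LDel) ha
    refine ⟨R, C, h1, h2, fun v => ?_⟩
    have h4 := h3 v
    rw [sum_D] at h4
    rw [mX_D] at h4
    have hr : ((LDel.r : ℕ) : ℂ) = 0 := Nat.cast_zero
    rw [hr, zero_mul, zero_sub] at h4
    rw [h4]
    unfold ED
    push_cast
    ring

end Pool.Agent.E8helper14.DL
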