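import Pool.Agent.E8helper14.DL.Delta

/-! # The criterion for the discriminant -/

set_option autoImplicit false
set_option linter.unusedSectionVars false

namespace Pool.Agent.E8helper14.DL

open MeasureTheory Set Filter Topology Complex
open scoped ComplexConjugate
open Pool.Agent.E8helper14.LI
open Pool.Agent.E8helper66.ND (Ld ld Fd lf_delta Ld_fe Fd_zero LF)
open Pool.Agent.E8helper66.ML (ps)

/-- sums over the prime powers -/
lemma sum_pp (f : ℕ → ℝ) (hf : ∀ n, ¬ IsPrimePow n → f n = 0) :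
    ∑' n, f n = ∑' x : Nat.Primes × ℕ, f ((x.1 : ℕ) ^ (x.2 + 1)) := by
  have h1 : ∑' n : {n : ℕ // IsPrimePow n}, f n = ∑' n, f n :=
    tsum_subtype_eq_of_support_subset (f := f) (s := {n : ℕ | IsPrimePow n}) fun n hn => by
      by_contra hc
      exact hn (hf n hc)
  rw [← h1, ← Nat.Primes.prodNatEquiv.tsum_eq]
  exact tsum_congr fun x => rfl

lemma summ_pp {f : ℕ → ℝ} (hf : Summable f) : Summable fun x : Nat.Primes × ℕ => f ((x.1 : ℕ) ^ (x.2 + 1)) := by
  have h1 : Summable (fun n : {n : ℕ // IsPrimePow n} => f n) := hf.subtype _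
  exact Nat.Primes.prodNatEquiv.summable_iff.2 h1

/-- the power sums of the roots of `X² - t X + P²` -/
lemma ps_scale {t P x : ℝ} (ht : t = P * x) {s : ℕ → ℝ} (h0 : s 0 = 2) (h1 : s 1 = t)
    (h2 : ∀ k, s (k + 2) = t * s (k + 1) - P ^ 2 * s k) (k : ℕ) : s k = P ^ k * ps x 1 k := by
  induction k using Nat.strong_induction_on with
  | _ k ih =>
    match k with
    | 0 => rw [h0, pow_zero, one_mul]; rfl
    | 1 => rw [h1, pow_one, ht]; rfl
    | k + 2 =>
      rw [h2, ih (k + 1) (by omega), ih k (by omega), ht]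
      show _ = P ^ (k + 2) * (x * ps x 1 (k + 1) - 1 * ps x 1 k)
      ring

/-- the term at a prime power -/
lemma term_pp {a v : ℝ} (p : Nat.Primes) (k : ℕ) {t : ℝ} {s : ℕ → ℝ} (ht : t = ((p : ℕ) : ℝ) ^ (11 / 2 : ℝ) * ld p)
    (h0 : s 0 = 2) (h1 : s 1 = t) (h2 : ∀ k, s (k + 2) = t * s (k + 1) - ((p : ℕ) : ℝ) ^ 11 * s k) :
    ArithmeticFunction.vonMangoldt ((p : ℕ) ^ (k + 1)) * cD ((p : ℕ) ^ (k + 1)) * (((p : ℕ) ^ (k + 1) : ℕ) : ℝ) ^ (-(1 / 2) : ℝ) *
      gs a (v - Real.log (((p : ℕ) ^ (k + 1) : ℕ) : ℝ)) =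
    Real.log (p : ℕ) * s (k + 1) / ((p : ℕ) : ℝ) ^ (6 * (k + 1)) *
      Real.exp (-(v - (k + 1) * Real.log (p : ℕ)) ^ 2 / (2 * a)) := by
  have hp : (0 : ℝ) < ((p : ℕ) : ℝ) := by exact_mod_cast p.2.pos
  have hP : (((p : ℕ) : ℝ) ^ (11 / 2 : ℝ)) ^ 2 = ((p : ℕ) : ℝ) ^ 11 := by
    rw [← Real.rpow_natCast, ← Real.rpow_mul hp.le, ← Real.rpow_natCast]
    norm_num
  have hs := ps_scale ht h0 h1 (fun k => by rw [hP]; exact h2 k) (k + 1)
  rw [ArithmeticFunction.vonMangoldt_apply_pow (Nat.succ_ne_zero k), ArithmeticFunction.vonMangoldt_apply_prime p.2, cD_pow,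
    Nat.cast_pow, Real.log_pow, hs]
  have h3 : (((p : ℕ) : ℝ) ^ (k + 1)) ^ (-(1 / 2) : ℝ) * ((p : ℕ) : ℝ) ^ (6 * (k + 1)) =
      (((p : ℕ) : ℝ) ^ (11 / 2 : ℝ)) ^ (k + 1) := by
    rw [← Real.rpow_natCast ((p : ℕ) : ℝ) (k + 1), ← Real.rpow_mul hp.le, ← Real.rpow_natCast ((p : ℕ) : ℝ) (6 * (k + 1)),
      ← Real.rpow_add hp, ← Real.rpow_natCast (((p : ℕ) : ℝ) ^ (11 / 2 : ℝ)), ← Real.rpow_mul hp.le]
    congr 1
    push_cast
    ring
  have h4 : ((p : ℕ) : ℝ) ^ (6 * (k + 1)) ≠ 0 := (pow_pos hp _).ne'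
  unfold gs
  rw [← h3]
  have h5 : ((k + 1 : ℕ) : ℝ) = (k : ℝ) + 1 := by push_cast; ring
  rw [h5]
  field_simp

/-! ### the zeros -/

/-- the Xi function -/
noncomputable def Xg (z : ℂ) : ℂ := Ld (6 + I * z)

lemma XD_Xg (z : ℂ) : XD (1 / 2 + I * z) = 2 * Xg z := by
  unfold XD Xg
  congr 2
  ring

lemma ord_Xg (z : ℂ) : mDel (1 / 2 + I * z) = analyticOrderNatAt Xg z := by
  unfold mDel analyticOrderNatAt
  congr 1
  have hg : AnalyticAt ℂ (fun z : ℂ => 1 / 2 + I * z) z := by fun_prop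
  have hd : deriv (fun z : ℂ => 1 / 2 + I * z) z ≠ 0 := by
    have : HasDerivAt (fun z : ℂ => 1 / 2 + I * z) I z := by
      simpa using ((hasDerivAt_id z).const_mul I).const_add (1 / 2)
    rw [this.deriv]
    exact I_ne_zero
  have h1 := analyticOrderAt_comp_of_deriv_ne_zero (f := XD) hg hd
  rw [← h1]
  have h2 : (XD ∘ fun z : ℂ => 1 / 2 + I * z) = (fun _ : ℂ => (2 : ℂ)) * Xg := by
    funext w
    exact XD_Xg w
  have hX : AnalyticAt ℂ Xg z := by
    have : Differentiable ℂ Xg := by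
      have h6 : Differentiable ℂ fun z : ℂ => 6 + I * z := by fun_prop
      exact Ld_diff.comp h6
    exact this.analyticAt z
  rw [h2, analyticOrderAt_mul analyticAt_const hX, (analyticAt_const.analyticOrderAt_eq_zero).2 two_ne_zero, zero_add]

lemma mDel_ne {s : ℂ} : mDel s ≠ 0 ↔ XD s = 0 := by
  constructor
  · intro h
    by_contra h0
    exact h (mX_zero (L := LDel) h0)
  · intro h
    have := mX_pos (L := LDel) h
    rw [mX_D] at this
    omega

lemma s_z (s : ℂ) : s = 1 / 2 + I * (-I * (s - 1 / 2)) := by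
  linear_combination (s - 1 / 2) * I_mul_I

/-- the index set in terms of the Xi function -/
abbrev Gam : Type := {x : ℂ × ℕ // 0 < x.1.re ∧ x.2 < analyticOrderNatAt Xg x.1}

/-- the two forms of the index set -/
noncomputable def gamE : Gam ≃ Zg mDel where
  toFun x := ⟨(1 / 2 + I * x.1.1, x.1.2), by
    have h := x.2
    unfold mP
    have e : (1 / 2 + I * x.1.1 : ℂ).im = x.1.1.re := by simp
    rw [e, if_pos h.1, ord_Xg]
    exact h.2⟩
  invFun y := ⟨(-I * (y.1.1 - 1 / 2), y.1.2), by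
    have h := y.2
    unfold mP at h
    have e : (-I * (y.1.1 - 1 / 2) : ℂ).re = y.1.1.im := by simp
    split_ifs at h with h1
    · refine ⟨by rw [e]; exact h1, ?_⟩
      rw [← ord_Xg, ← s_z]
      exact h
    · exact absurd h (Nat.not_lt_zero _)⟩
  left_inv x := by
    ext
    · show -I * (1 / 2 + I * x.1.1 - 1 / 2) = x.1.1
      linear_combination (-x.1.1) * I_mul_I
    · rfl
  right_inv y := by
    ext
    · show 1 / 2 + I * (-I * (y.1.1 - 1 / 2)) = y.1.1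
      exact (s_z _).symm
    · rfl

lemma gg_gamE (x : Gam) : gg gamE x = x.1.1.re := by
  unfold gg gamE
  simp

lemma XD_half : XD (1 / 2) ≠ 0 := by
  obtain ⟨B, -, -, hB, -⟩ := Pool.Agent.Y22.RX.ev_delta
  have h2 := Pool.Agent.Y22.RX.real_ne hB rfl (fun y hy => Pool.Agent.H128R3.JD.DelK.Dl_pos hy) 0
  intro h3
  apply h2
  unfold XD at h3
  have h4 := (mul_eq_zero.1 h3).resolve_left two_ne_zero
  rw [Pool.Agent.E8helper66.ND.Ld_mellin] at h4
  show mellin (fun y : ℝ => ((Pool.Agent.H128R3.JD.DelK.Dl y : ℝ) : ℂ))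
    ((((12 : ℝ) / 2 : ℝ) : ℂ) + ((0 : ℝ) : ℂ)) = 0
  rw [← h4]
  congr 1
  push_cast
  norm_num

lemma mDel_half : mDel (1 / 2) = 0 := by
  by_contra h
  exact XD_half (mDel_ne.1 h)

/-- the zeros in both forms -/
lemma zeros_form (P : ℝ → Prop) : (∀ s, mDel s ≠ 0 → P (s.re - 1 / 2)) ↔ ∀ z, Xg z = 0 → P (-z.im) := by
  constructor
  · intro h z hz
    have h1 := h (1 / 2 + I * z) (mDel_ne.2 (by rw [XD_Xg, hz, mul_zero]))
    have e : (1 / 2 + I * z : ℂ).re - 1 / 2 = -z.im := by simp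
    rwa [e] at h1
  · intro h s hs
    have h1 := mDel_ne.1 hs
    rw [s_z s, XD_Xg] at h1
    have h2 := h _ ((mul_eq_zero.1 h1).resolve_left two_ne_zero)
    have e : -(-I * (s - 1 / 2) : ℂ).im = s.re - 1 / 2 := by simp
    rwa [e] at h2

/-- the imaginary parts of the zeros are at most `1/2` -/
lemma im_le {z : ℂ} (hz : Xg z = 0) : |z.im| ≤ 1 / 2 := by
  have h1 : ∀ s, mDel s ≠ 0 → |s.re - 1 / 2| ≤ 1 / 2 := by
    intro s hs
    have h1 := (gn_D one_pos).strip s hs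
    have h2 := (gn_D one_pos).strip (1 - conj s) (by rw [(gn_D one_pos).refl]; exact hs)
    simp at h2
    rw [abs_le]
    constructor <;> linarith
  have h2 := (zeros_form fun x => |x| ≤ 1 / 2).1 h1 z hz
  rwa [abs_neg] at h2

end Pool.Agent.E8helper14.DL
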