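import Pool.Agent.E8helper14.DL.Lan2

/-! # The criterion for a general real explicit formula -/

set_option autoImplicit false
set_option linter.unusedSectionVars false

namespace Pool.Agent.E8helper14.DL

open MeasureTheory Set Filter Topology Complex
open scoped ComplexConjugate
open Pool.Agent.E8helper14.LI

/-- the data: multiplicities and the error term -/
structure Gn (a : ℝ) (m : ℂ → ℕ) (E : ℝ → ℝ) : Prop where
  strip : ∀ s, m s ≠ 0 → s.re ≤ 1
  refl : ∀ s, m (1 - conj s) = m s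
  cj : ∀ s, m (conj s) = m s
  sum : ∀ v, Summable (fun s : ℂ => ‖(m s : ℂ) * hG a v (s - 1 / 2)‖)
  ct : Continuous E
  ef : ∃ R : ℝ → ℂ, ∃ C : ℝ, (∀ v, 0 ≤ v → ‖R v‖ ≤ C) ∧ Tendsto R atTop (𝓝 0) ∧
    ∀ v : ℝ, ∑' s : ℂ, (m s : ℂ) * hG a v (s - 1 / 2) = (E v : ℂ) + R v

variable {a α : ℝ} {m : ℂ → ℕ} {E : ℝ → ℝ}

/-- the weights for Landau's theorem -/
noncomputable def DG (a : ℝ) (m : ℂ → ℕ) (w : ℂ) : ℂ := (m (1 / 2 + w) : ℂ) * cexp ((a / 2 : ℝ) * w ^ 2)

lemma DG_exp (v : ℝ) (w : ℂ) : DG a m w * cexp (w * v) = (m (1 / 2 + w) : ℂ) * hG a v (1 / 2 + w - 1 / 2) := by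
  unfold DG hG
  rw [add_sub_cancel_left, mul_assoc, ← Complex.exp_add, mul_comm w (v : ℂ)]

lemma ZG_eq (v : ℝ) : ZZ (DG a m) v = ∑' s : ℂ, (m s : ℂ) * hG a v (s - 1 / 2) := by
  unfold ZZ
  simp_rw [DG_exp]
  exact (Equiv.addLeft (1 / 2 : ℂ)).tsum_eq (fun s : ℂ => (m s : ℂ) * hG a v (s - 1 / 2))

lemma DG_ne {w : ℂ} : DG a m w ≠ 0 ↔ m (1 / 2 + w) ≠ 0 := by
  unfold DG
  simp [Complex.exp_ne_zero]

lemma DG_norm (ha : 0 < a) {w : ℂ} (h : DG a m w ≠ 0) : Real.exp (-(a / 2) * ‖w‖ ^ 2) ≤ ‖DG a m w‖ := by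
  have h1 := DG_ne.1 h
  unfold DG
  rw [norm_mul, Complex.norm_natCast, Complex.norm_exp]
  have h2 : (1 : ℝ) ≤ (m (1 / 2 + w) : ℝ) := by exact_mod_cast Nat.one_le_iff_ne_zero.2 h1
  have h3 : Real.exp (-(a / 2) * ‖w‖ ^ 2) ≤ Real.exp ((((a / 2 : ℝ) : ℂ) * w ^ 2).re) := by
    refine Real.exp_le_exp.2 ?_
    rw [Complex.re_ofReal_mul]
    have h4 : -‖w‖ ^ 2 ≤ (w ^ 2).re := by
      have := (abs_le.1 (Complex.abs_re_le_norm (w ^ 2))).1
      rwa [norm_pow] at this
    nlinarith
  have h5 := Real.exp_pos ((((a / 2 : ℝ) : ℂ) * w ^ 2).re)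
  nlinarith

lemma Gn.pf (H : Gn a m E) (ha : 0 < a) : PF (DG a m) := by
  have hs : Summable (fun w => ‖DG a m w‖) := by
    have h := H.sum 0
    rw [← (Equiv.addLeft (1 / 2 : ℂ)).summable_iff] at h
    refine h.congr fun w => ?_
    simp only [Function.comp, Equiv.coe_addLeft]
    rw [← DG_exp]
    simp
  refine ⟨hs, fun R => ?_⟩
  have h1 := hs.tendsto_cofinite_zero
  have h2 := h1.eventually_lt_const (Real.exp_pos (-(a / 2) * R ^ 2))
  rw [Filter.eventually_cofinite] at h2
  refine h2.subset fun w hw => ?_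
  show ¬ ‖DG a m w‖ < Real.exp (-(a / 2) * R ^ 2)
  rw [not_lt]
  refine le_trans (Real.exp_le_exp.2 ?_) (DG_norm ha hw.1)
  have h3 : ‖w‖ ^ 2 ≤ R ^ 2 := pow_le_pow_left₀ (norm_nonneg _) hw.2 2
  nlinarith

lemma mn_le {F : ℝ → ℝ} (hF : Continuous F) {V B : ℝ} (hV : 0 < V) (h : ∀ v ∈ Icc 0 V, F v ≤ B) : mn F V ≤ B := by
  unfold mn
  rw [inv_mul_le_iff₀ hV]
  have h1 : ∫ v in (0 : ℝ)..V, F v ≤ ∫ _v in (0 : ℝ)..V, B :=
    intervalIntegral.integral_mono_on hV.le (hF.intervalIntegrable _ _) intervalIntegrable_const h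
  rw [intervalIntegral.integral_const, sub_zero, smul_eq_mul] at h1
  exact h1

/-- the growth from the zeros -/
lemma Gn.upper (H : Gn a m E) {θ : ℝ} (hθ : 0 ≤ θ) (hz : ∀ s, m s ≠ 0 → |s.re - 1 / 2| ≤ θ) :
    ∃ K : ℝ, 0 ≤ K ∧ ∀ v, 0 ≤ v → E v ≤ K * Real.exp (θ * v) := by
  obtain ⟨R, C, h1, -, h3⟩ := H.ef
  set S0 : ℝ := ∑' s : ℂ, ‖(m s : ℂ) * hG a 0 (s - 1 / 2)‖ with hS0
  have hS0n : 0 ≤ S0 := tsum_nonneg fun _ => norm_nonneg _
  refine ⟨S0 + |C|, by positivity, fun v hv => ?_⟩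
  have h4 : ‖∑' s : ℂ, (m s : ℂ) * hG a v (s - 1 / 2)‖ ≤ S0 * Real.exp (θ * v) := by
    refine tsum_of_norm_bounded (((H.sum 0).hasSum).mul_right _) fun s => ?_
    by_cases hs : m s = 0
    · rw [hs]; simp
    rw [norm_mul, norm_mul, mul_assoc]
    refine mul_le_mul_of_nonneg_left ?_ (norm_nonneg _)
    unfold hG
    rw [Complex.norm_exp, Complex.norm_exp, ← Real.exp_add]
    refine Real.exp_le_exp.2 ?_
    rw [Complex.add_re, Complex.add_re, Complex.ofReal_zero, zero_mul, Complex.zero_re, add_zero]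
    have h5 : ((v : ℂ) * (s - 1 / 2)).re = v * (s.re - 1 / 2) := by
      rw [Complex.re_ofReal_mul]; simp
    rw [h5]
    have h6 := (le_abs_self _).trans (hz s hs)
    have h7 := mul_le_mul_of_nonneg_left h6 hv
    linarith
  have h5 : E v ≤ ‖((E v : ℝ) : ℂ)‖ := by
    rw [Complex.norm_real]; exact le_abs_self _
  have h6 : ‖((E v : ℝ) : ℂ)‖ ≤ ‖∑' s : ℂ, (m s : ℂ) * hG a v (s - 1 / 2)‖ + ‖R v‖ := by
    have e : ((E v : ℝ) : ℂ) = (∑' s : ℂ, (m s : ℂ) * hG a v (s - 1 / 2)) - R v := by rw [h3]; ring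
    rw [e]
    exact norm_sub_le _ _
  have h7 := h1 v hv
  have h8 : |C| ≤ |C| * Real.exp (θ * v) := by
    have : 1 ≤ Real.exp (θ * v) := Real.one_le_exp (mul_nonneg hθ hv)
    nlinarith [abs_nonneg C]
  have h9 := le_abs_self C
  rw [add_mul]
  linarith

lemma pos_le {α x T : ℝ} (hα : 0 < α) (hT : 0 ≤ T) : max x 0 ≤ α⁻¹ * (T + Real.exp (-T) * Real.exp (α * x)) := by
  rw [← Real.exp_add, le_inv_mul_iff₀ hα]
  rcases le_total x 0 with h | h
  · rw [max_eq_right h, mul_zero]
    positivity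
  · rw [max_eq_left h]
    have := Real.add_one_le_exp (-T + α * x)
    linarith

/-- **the rate of growth** -/
theorem Gn.growth (H : Gn a m E) (ha : 0 < a) (hα : 0 < α) {θ : ℝ} (hθ : 0 ≤ θ) :
    (∀ s, m s ≠ 0 → |s.re - 1 / 2| ≤ θ) ↔
      ∀ ε > 0, ∀ᶠ V in atTop, mn (fun v => Real.exp (α * E v)) V ≤ Real.exp (Real.exp ((θ + ε) * V)) := by
  have hF : Continuous (fun v => Real.exp (α * E v)) := Real.continuous_exp.comp (continuous_const.mul H.ct)
  constructor
  · intro hz ε hε
    obtain ⟨K, hK, h1⟩ := H.upper hθ hz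
    have h2 : ∀ᶠ V : ℝ in atTop, α * K ≤ Real.exp (ε * V) :=
      (Real.tendsto_exp_atTop.comp (tendsto_id.const_mul_atTop hε)).eventually_ge_atTop _
    filter_upwards [h2, eventually_gt_atTop 0] with V h2 hV
    refine mn_le hF hV fun v hv => Real.exp_le_exp.2 ?_
    have h3 := h1 v hv.1
    have h4 : Real.exp (θ * v) ≤ Real.exp (θ * V) := Real.exp_le_exp.2 (mul_le_mul_of_nonneg_left hv.2 hθ)
    calc α * E v ≤ α * (K * Real.exp (θ * V)) := by
          refine mul_le_mul_of_nonneg_left (h3.trans (mul_le_mul_of_nonneg_left h4 hK)) hα.le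
      _ = (α * K) * Real.exp (θ * V) := by ring
      _ ≤ Real.exp (ε * V) * Real.exp (θ * V) := mul_le_mul_of_nonneg_right h2 (Real.exp_pos _).le
      _ = _ := by rw [← Real.exp_add]; congr 1; ring
  · intro h
    set κ : ℝ → ℝ := fun v => max (E v) 0 with hκ
    have hκc : Continuous κ := H.ct.max continuous_const
    have hκ0 : ∀ v, 0 ≤ κ v := fun v => le_max_right _ _
    have hint : ∀ w > θ, Pool.Agent.W263.BSD.LInt κ w := by
      intro w hw
      set δ : ℝ := (w - θ) / 3 with hδ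
      have hδ0 : 0 < δ := by simp only [hδ]; linarith
      obtain ⟨V0, hV0⟩ := eventually_atTop.1 (h δ hδ0)
      set V1 : ℝ := max V0 1 with hV1
      set K : ℝ := ∫ v in (0 : ℝ)..V1, κ v with hK
      have hV1p : 0 < V1 := lt_of_lt_of_le one_pos (le_max_right _ _)
      have hKn : 0 ≤ K := intervalIntegral.integral_nonneg hV1p.le fun v _ => hκ0 v
      refine LInt_of_int hκc hκ0 (K := K) (C := 2 * α⁻¹ * δ⁻¹) (t := θ + 2 * δ) hKn (by positivity) (by linarith)
        (by simp only [hδ]; linarith) fun V hV => ?_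
      rcases le_total V V1 with h1 | h1
      · have h2 : ∫ v in (0 : ℝ)..V, κ v ≤ K := by
          rw [hK, ← intervalIntegral.integral_add_adjacent_intervals (hκc.intervalIntegrable 0 V)
            (hκc.intervalIntegrable V V1)]
          have : 0 ≤ ∫ v in V..V1, κ v := intervalIntegral.integral_nonneg h1 fun v _ => hκ0 v
          linarith
        have h3 : 0 ≤ 2 * α⁻¹ * δ⁻¹ * Real.exp ((θ + 2 * δ) * V) := by positivity
        linarith
      · have hVp : 0 < V := hV1p.trans_le h1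
        set T : ℝ := Real.exp ((θ + δ) * V) with hT
        have hTp : 0 < T := Real.exp_pos _
        have hT1 : 1 ≤ T := Real.one_le_exp (by positivity)
        have h2 := hV0 V ((le_max_left _ _).trans h1)
        have hc2 : Continuous (fun v => α⁻¹ * (T + Real.exp (-T) * Real.exp (α * E v))) := by
          have := H.ct
          fun_prop
        have h3 : ∫ v in (0 : ℝ)..V, κ v ≤ ∫ v in (0 : ℝ)..V, α⁻¹ * (T + Real.exp (-T) * Real.exp (α * E v)) :=
          intervalIntegral.integral_mono_on hVp.le (hκc.intervalIntegrable _ _) (hc2.intervalIntegrable _ _)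
            fun v _ => pos_le hα hTp.le
        have hc3 : Continuous (fun v => Real.exp (-T) * Real.exp (α * E v)) := by
          have := H.ct
          fun_prop
        rw [intervalIntegral.integral_const_mul, intervalIntegral.integral_add intervalIntegrable_const
          (hc3.intervalIntegrable _ _), intervalIntegral.integral_const, intervalIntegral.integral_const_mul,
          sub_zero, smul_eq_mul] at h3
        have h4 : ∫ v in (0 : ℝ)..V, Real.exp (α * E v) ≤ V * Real.exp T := by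
          unfold mn at h2
          rwa [inv_mul_le_iff₀ hVp] at h2
        have h5 : Real.exp (-T) * ∫ v in (0 : ℝ)..V, Real.exp (α * E v) ≤ V := by
          have := mul_le_mul_of_nonneg_left h4 (Real.exp_pos (-T)).le
          have e : Real.exp (-T) * (V * Real.exp T) = V := by
            rw [mul_left_comm, ← Real.exp_add]; simp
          rwa [e] at this
        have h6 : α⁻¹ * (V * T + Real.exp (-T) * ∫ v in (0 : ℝ)..V, Real.exp (α * E v)) ≤ α⁻¹ * (V * T + V * T) := by
          refine mul_le_mul_of_nonneg_left ?_ (by positivity)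
          have : V ≤ V * T := le_mul_of_one_le_right hVp.le hT1
          linarith
        have h7 : V ≤ δ⁻¹ * Real.exp (δ * V) := by
          rw [le_inv_mul_iff₀ hδ0]
          have := Real.add_one_le_exp (δ * V)
          linarith
        have h8 : α⁻¹ * (V * T + V * T) ≤ 2 * α⁻¹ * δ⁻¹ * Real.exp ((θ + 2 * δ) * V) := by
          have e : Real.exp ((θ + 2 * δ) * V) = Real.exp (δ * V) * T := by
            simp only [hT]; rw [← Real.exp_add]; congr 1; ring
          rw [e]
          calc α⁻¹ * (V * T + V * T) = 2 * α⁻¹ * (V * T) := by ring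
            _ ≤ 2 * α⁻¹ * ((δ⁻¹ * Real.exp (δ * V)) * T) := by
              refine mul_le_mul_of_nonneg_left ?_ (by positivity)
              exact mul_le_mul_of_nonneg_right h7 hTp.le
            _ = _ := by ring
        linarith
    obtain ⟨R, C, hR1, -, hR3⟩ := H.ef
    have hmain := landau_exp (D := DG a m) (S := E) (κ := κ) (B := C) hθ (H.pf ha) (fun w hw => by
        have h1 := H.strip _ (DG_ne.1 hw)
        simp at h1
        linarith) (fun x hx hx0 => by
        have h1 := DG_ne.1 hx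
        have h2 : DG a m x = ((m (1 / 2 + x) * Real.exp (a / 2 * x ^ 2) : ℝ) : ℂ) := by
          unfold DG
          push_cast
          rfl
        rw [h2, Complex.ofReal_re, Complex.ofReal_im]
        exact ⟨mul_pos (by exact_mod_cast Nat.pos_of_ne_zero h1) (Real.exp_pos _), rfl⟩)
      H.ct.measurable hκc.measurable (fun v hv => by
        rw [ZG_eq, hR3, add_sub_cancel_left]
        exact hR1 v hv.le) hint (fun v hv => le_max_left _ _)
    have hle : ∀ s, m s ≠ 0 → s.re - 1 / 2 ≤ θ := by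
      intro s hs
      have h1 : DG a m (s - 1 / 2) ≠ 0 := DG_ne.2 (by rwa [add_sub_cancel])
      have h2 := hmain _ h1
      simpa using h2
    intro s hs
    rw [abs_le]
    refine ⟨?_, hle s hs⟩
    have h1 := H.refl s
    have h2 := hle (1 - conj s) (by rw [h1]; exact hs)
    simp at h2
    linarith

/-! ### the expansion on the line -/

open Classical in
/-- the zeros above the real axis -/
noncomputable def mP (m : ℂ → ℕ) (s : ℂ) : ℕ := if 0 < s.im then m s else 0

/-- the index set -/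
abbrev Zg (m : ℂ → ℕ) : Type := {x : ℂ × ℕ // x.2 < mP m x.1}

lemma zg_sum (M : ℂ → ℕ) (g : ℂ → ℝ) (h : Summable (fun s => (M s : ℝ) * |g s|)) :
    Summable (fun y : {y : ℂ × ℕ // y.2 < M y.1} => |g y.1.1|) ∧
    ∑' y : {y : ℂ × ℕ // y.2 < M y.1}, g y.1.1 = ∑' s, (M s : ℝ) * g s := by
  let e : {y : ℂ × ℕ // y.2 < M y.1} ≃ (Σ s : ℂ, Fin (M s)) :=
    { toFun := fun y => ⟨y.1.1, ⟨y.1.2, y.2⟩⟩
      invFun := fun z => ⟨(z.1, z.2.1), z.2.2⟩
      left_inv := fun _ => rfl
      right_inv := fun _ => rfl }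
  have hin : ∀ (f : ℂ → ℝ) (s : ℂ), ∑' _z : Fin (M s), f s = (M s : ℝ) * f s := by
    intro f s
    rw [tsum_fintype, Finset.sum_const, Finset.card_univ, Fintype.card_fin, nsmul_eq_mul]
  have h1 : Summable (fun z : (Σ s : ℂ, Fin (M s)) => |g z.1|) := by
    rw [summable_sigma_of_nonneg (fun z => abs_nonneg _)]
    refine ⟨fun s => (hasSum_fintype _).summable, ?_⟩
    refine h.congr fun s => ?_
    exact (hin (fun s => |g s|) s).symm
  have h2 : Summable (fun z : (Σ s : ℂ, Fin (M s)) => g z.1) := Summable.of_norm h1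
  constructor
  · rw [← e.symm.summable_iff]
    exact h1
  · rw [← e.symm.tsum_eq]
    show ∑' z : (Σ s : ℂ, Fin (M s)), g z.1 = _
    rw [h2.tsum_sigma]
    exact tsum_congr fun s => hin g s

section

variable {ι : Type} (e : ι ≃ Zg m)

/-- the frequencies -/
def gg (e : ι ≃ Zg m) (x : ι) : ℝ := (e x).1.1.im

/-- the coefficients -/
noncomputable def cg (e : ι ≃ Zg m) (a α : ℝ) (x : ι) : ℝ := α * Real.exp (-(a / 2) * gg e x ^ 2)

lemma Gn.U_summable (H : Gn a m E) (ha : 0 < a) (g : ℂ → ℝ) (hg : ∀ s, |g s| ≤ Real.exp (-(a / 2) * s.im ^ 2)) :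
    Summable (fun s => (mP m s : ℝ) * |g s|) := by
  classical
  have h := H.sum 0
  refine Summable.of_nonneg_of_le (fun s => by positivity) (fun s => ?_) h
  rw [norm_mul, Complex.norm_natCast]
  refine mul_le_mul ?_ ((hg s).trans (hG_norm_ge ha)) (abs_nonneg _) (Nat.cast_nonneg _)
  unfold mP
  split_ifs
  · exact le_rfl
  · simp

lemma Gn.cg_summable (H : Gn a m E) (ha : 0 < a) : Summable (cg e a α) := by
  have h := (zg_sum (mP m) (fun s => Real.exp (-(a / 2) * s.im ^ 2))
    (H.U_summable ha _ fun s => by rw [abs_of_pos (Real.exp_pos _)])).1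
  have h1 : Summable (fun x : Zg m => Real.exp (-(a / 2) * x.1.1.im ^ 2)) := by
    refine h.congr fun x => ?_
    rw [abs_of_pos (Real.exp_pos _)]
  exact (e.summable_iff.2 h1).mul_left α

lemma Gn.fv_sum (H : Gn a m E) (ha : 0 < a) (v : ℝ) : ∑' x : ι, 2 * cg e a α x * Real.cos (gg e x * v) =
    2 * α * ∑' s, (mP m s : ℝ) * fv a v s := by
  have h := (zg_sum (mP m) (fv a v) (H.U_summable ha _ fun s => by
    unfold fv
    rw [abs_mul, abs_of_pos (Real.exp_pos _)]
    calc _ ≤ Real.exp (-(a / 2) * s.im ^ 2) * 1 :=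
          mul_le_mul_of_nonneg_left (Real.abs_cos_le_one _) (Real.exp_pos _).le
      _ = _ := mul_one _)).2
  rw [← h, ← e.tsum_eq, ← tsum_mul_left]
  refine tsum_congr fun x => ?_
  unfold cg gg fv
  ring

/-- **the almost periodic expansion** -/
theorem Gn.expansion (H : Gn a m E) (ha : 0 < a) (hGR : ∀ s, m s ≠ 0 → s.re = 1 / 2) :
    Tendsto (fun v => α * E v - (α * (m (1 / 2) : ℝ) + ∑' x : ι, 2 * cg e a α x * Real.cos (gg e x * v))) atTop (𝓝 0) := by
  classical
  obtain ⟨R, B, hR1, hR2, hR3⟩ := H.ef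
  have hkey : ∀ v, α * E v - (α * (m (1 / 2) : ℝ) + ∑' x : ι, 2 * cg e a α x * Real.cos (gg e x * v)) = -(α * (R v).re) := by
    intro v
    have h1 := congrArg Complex.re (hR3 v)
    rw [Complex.add_re, Complex.ofReal_re, Complex.re_tsum (H.sum v).of_norm] at h1
    have h2 : ∑' s : ℂ, ((m s : ℂ) * hG a v (s - 1 / 2)).re = ∑' s : ℂ, (m s : ℝ) * fv a v s := by
      refine tsum_congr fun s => ?_
      by_cases hs : m s = 0
      · simp [hs]
      · rw [← hG_re (hGR s hs) v]
        have : ((m s : ℕ) : ℂ) = ((m s : ℝ) : ℂ) := by push_cast; rfl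
        rw [this, Complex.re_ofReal_mul]
    rw [h2, sign_split (M := fun s => (m s : ℝ)) (g := fv a v)] at h1
    · have h3 : fv a v (1 / 2) = 1 := by
        unfold fv
        simp
      have h4 : ∀ s : ℂ, (if 0 < s.im then (m s : ℝ) else 0) = (mP m s : ℝ) := by
        intro s
        unfold mP
        split_ifs <;> simp
      rw [h3, mul_one] at h1
      simp_rw [h4] at h1
      rw [H.fv_sum e ha v]
      have h5 : (R v).re = (m (1 / 2) : ℝ) + 2 * (∑' s, (mP m s : ℝ) * fv a v s) - E v := by linarith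
      rw [h5]
      ring
    · intro s
      simp only [H.cj]
    · intro s
      unfold fv
      rw [Complex.conj_im, neg_sq, neg_mul s.im v, Real.cos_neg]
    · intro s hs him
      have h5 := hGR s (by exact_mod_cast hs)
      apply Complex.ext
      · simpa using h5
      · simpa using him
    · refine Summable.of_norm_bounded (H.sum 0) fun s => ?_
      unfold fv
      rw [norm_mul, norm_mul, norm_mul, Real.norm_natCast, Complex.norm_natCast, Real.norm_of_nonneg (Real.exp_pos _).le,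
        Real.norm_eq_abs]
      refine mul_le_mul_of_nonneg_left ?_ (Nat.cast_nonneg _)
      calc Real.exp (-(a / 2) * s.im ^ 2) * |Real.cos (s.im * v)| ≤ Real.exp (-(a / 2) * s.im ^ 2) * 1 :=
            mul_le_mul_of_nonneg_left (Real.abs_cos_le_one _) (Real.exp_pos _).le
        _ = Real.exp (-(a / 2) * s.im ^ 2) := mul_one _
        _ ≤ _ := hG_norm_ge ha
  simp_rw [hkey]
  have h1 := (((Complex.continuous_re.tendsto 0).comp hR2).const_mul α).neg
  simpa using h1

/-- the constant -/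
noncomputable def RG (e : ι ≃ Zg m) (a α : ℝ) : ℝ := Real.exp (α * (m (1 / 2) : ℝ)) * ∏' x : ι, I0 (cg e a α x)

lemma cg_pos (hα : 0 < α) (x : ι) : 0 < cg e a α x := mul_pos hα (Real.exp_pos _)

lemma Gn.mean_diff (H : Gn a m E) (ha : 0 < a) (hα : 0 < α) (hGR : ∀ s, m s ≠ 0 → s.re = 1 / 2) :
    Tendsto (fun V => mn (fun v => Real.exp (α * E v)) V -
      Real.exp (α * (m (1 / 2) : ℝ)) * mn (Fz (cg e a α) (gg e)) V) atTop (𝓝 0) := by
  have hE := H.ct
  have hcs := H.cg_summable (α := α) e ha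
  have hF := Fz_cont (γ := gg e) (fun x => (cg_pos e (a := a) hα x).le) hcs
  set D : ℝ → ℝ := fun v => Real.exp (α * E v) - Real.exp (α * (m (1 / 2) : ℝ)) * Fz (cg e a α) (gg e) v with hD
  have hDc : Continuous D := (Real.continuous_exp.comp (continuous_const.mul hE)).sub (continuous_const.mul hF)
  have hD0 : Tendsto D atTop (𝓝 0) := by
    have h1 := H.expansion (α := α) e ha hGR
    have h2 : Tendsto (fun v => Real.exp (α * E v - (α * (m (1 / 2) : ℝ) + ∑' x : ι, 2 * cg e a α x * Real.cos (gg e x * v))) - 1)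
        atTop (𝓝 0) := by
      have := (h1.rexp).sub_const 1
      simpa using this
    have h3 : ∀ v, D v = (Real.exp (α * (m (1 / 2) : ℝ)) * Fz (cg e a α) (gg e) v) *
        (Real.exp (α * E v - (α * (m (1 / 2) : ℝ) + ∑' x : ι, 2 * cg e a α x * Real.cos (gg e x * v))) - 1) := by
      intro v
      simp only [hD]
      unfold Fz
      rw [mul_sub, mul_one, ← Real.exp_add, ← Real.exp_add]
      congr 2
      ring
    set K : ℝ := Real.exp (α * (m (1 / 2) : ℝ)) * Real.exp (∑' x : ι, 2 * cg e a α x) with hK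
    have h4 : Tendsto (fun v => K * |Real.exp (α * E v - (α * (m (1 / 2) : ℝ) + ∑' x : ι, 2 * cg e a α x * Real.cos (gg e x * v))) - 1|)
        atTop (𝓝 0) := by
      have := (h2.abs).const_mul K
      simpa using this
    refine squeeze_zero_norm (fun v => ?_) h4
    rw [h3, norm_mul, Real.norm_eq_abs, Real.norm_eq_abs]
    refine mul_le_mul_of_nonneg_right ?_ (abs_nonneg _)
    have h7 : 0 ≤ Fz (cg e a α) (gg e) v := (Real.exp_pos _).le
    rw [abs_of_nonneg (mul_nonneg (Real.exp_pos _).le h7)]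
    refine mul_le_mul_of_nonneg_left ?_ (Real.exp_pos _).le
    unfold Fz
    refine Real.exp_le_exp.2 ?_
    refine Summable.tsum_le_tsum (fun x => ?_) (term_summable (fun x => (cg_pos e hα x).le) hcs v)
      (hcs.mul_left 2)
    calc 2 * cg e a α x * Real.cos (gg e x * v) ≤ 2 * cg e a α x * 1 :=
          mul_le_mul_of_nonneg_left (Real.cos_le_one _) (by have := cg_pos e (a := a) hα x; positivity)
      _ = _ := mul_one _
  have h5 := mn_zero hDc hD0
  refine h5.congr fun V => ?_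
  have h6 : mn (fun v => Real.exp (α * E v)) V = mn (fun v => D v + Real.exp (α * (m (1 / 2) : ℝ)) * Fz (cg e a α) (gg e) v) V := by
    congr 1
    funext v
    simp only [hD]
    ring
  have h8 : Continuous (fun v => Real.exp (α * (m (1 / 2) : ℝ)) * Fz (cg e a α) (gg e) v) := continuous_const.mul hF
  rw [h6, mn_add hDc h8, mn_const_mul]
  ring

/-- **the limit on the line** -/
theorem Gn.limit (H : Gn a m E) (ha : 0 < a) (hα : 0 < α) (hGR : ∀ s, m s ≠ 0 → s.re = 1 / 2) :
    ∃ L : ℝ, Tendsto (mn (fun v => Real.exp (α * E v))) atTop (𝓝 L) ∧ RG e a α ≤ L ∧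
      (L = RG e a α ↔ LinearIndependent ℚ (gg e)) ∧
      ∀ n : ι →₀ ℤ, n ≠ 0 → n.sum (fun x k => (k : ℝ) * gg e x) = 0 →
        RG e a α + 2 * Real.exp (α * (m (1 / 2) : ℝ)) *
          n.prod (fun x k => cg e a α x ^ k.natAbs / (k.natAbs.factorial : ℝ)) ≤ L := by
  have hcs := H.cg_summable (α := α) e ha
  have hc0 : ∀ x : ι, 0 ≤ cg e a α x := fun x => (cg_pos e (a := a) hα x).le
  set E0 : ℝ := Real.exp (α * (m (1 / 2) : ℝ)) with hE0
  have hE0p : 0 < E0 := Real.exp_pos _
  obtain ⟨L, hL⟩ := mean_exists (γ := gg e) hc0 hcs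
  have h1 := (H.mean_diff e ha hα hGR).add (hL.const_mul E0)
  rw [zero_add] at h1
  have h2 : Tendsto (mn (fun v => Real.exp (α * E v))) atTop (𝓝 (E0 * L)) := by
    refine h1.congr fun V => ?_
    ring
  refine ⟨E0 * L, h2, ?_, ⟨fun h => ?_, fun h => ?_⟩, fun n hn hrel => ?_⟩
  · unfold RG
    exact mul_le_mul_of_nonneg_left (lim_ge hc0 hcs hL) hE0p.le
  · by_contra hLI
    obtain ⟨δ, hδ, hev⟩ := mean_notLI (fun x => cg_pos e (a := a) hα x) hcs hLI
    have h3 := ge_of_tendsto hL hev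
    have h4 : L = ∏' x : ι, I0 (cg e a α x) := by
      unfold RG at h
      rw [← hE0] at h
      exact mul_left_cancel₀ hE0p.ne' h
    linarith
  · have h3 := mean_LI hc0 hcs h
    unfold RG
    rw [← hE0, tendsto_nhds_unique hL h3]
  · have h3 := lim_gap hc0 hcs hL n hn hrel
    have h4 := mul_le_mul_of_nonneg_left h3 hE0p.le
    unfold RG
    rw [← hE0]
    calc _ = E0 * (∏' i, I0 (cg e a α i) + 2 * n.prod (fun x k => cg e a α x ^ k.natAbs / (k.natAbs.factorial : ℝ))) := by ring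
      _ ≤ _ := h4

/-- **boundedness of the mean** -/
theorem Gn.bounded (H : Gn a m E) (ha : 0 < a) (hα : 0 < α) {C : ℝ}
    (h : ∀ᶠ V in atTop, mn (fun v => Real.exp (α * E v)) V ≤ C) : ∀ s, m s ≠ 0 → s.re = 1 / 2 := by
  have h1 := (H.growth ha hα (θ := 0) le_rfl).2 fun ε hε => by
    have h2 : ∀ᶠ V : ℝ in atTop, C ≤ Real.exp (Real.exp ((0 + ε) * V)) := by
      have h3 : Tendsto (fun V : ℝ => Real.exp (Real.exp ((0 + ε) * V))) atTop atTop :=
        Real.tendsto_exp_atTop.comp (Real.tendsto_exp_atTop.comp (tendsto_id.const_mul_atTop (by linarith)))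
      exact h3.eventually_ge_atTop C
    filter_upwards [h, h2] with V h3 h4 using h3.trans h4
  intro s hs
  have h2 := abs_nonpos_iff.1 (h1 s hs)
  linarith

end

end Pool.Agent.E8helper14.DL
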