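import Pool.Agent.E8helper14.LI.Fin

/-! # Landau's theorem with an exponential bound -/

set_option autoImplicit false

namespace Pool.Agent.E8helper14.DL

open Filter Topology MeasureTheory Set
open Pool.Agent.W263.BSD Pool.Agent.E8helper14.LI

/-- integrals with an exponential bound -/
lemma LInt_of_int {κ : ℝ → ℝ} (hκ : Continuous κ) (h0 : ∀ v, 0 ≤ κ v) {K C t w : ℝ} (hK : 0 ≤ K) (hC : 0 ≤ C)
    (ht : 0 ≤ t) (htw : t < w) (hb : ∀ V : ℝ, 0 ≤ V → ∫ v in (0 : ℝ)..V, κ v ≤ K + C * Real.exp (t * V)) :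
    LInt κ w := by
  unfold LInt
  have hw : 0 < w := ht.trans_lt htw
  have hcont : Continuous (fun u : ℝ => κ u * Real.exp (-(w * u))) := by fun_prop
  set g : ℕ → ℝ := fun n => K * Real.exp (-w) ^ n + (C * Real.exp t) * Real.exp (t - w) ^ n with hg
  have hgs : Summable g := by
    have hr : ‖Real.exp (-w)‖ < 1 := by
      rw [Real.norm_of_nonneg (Real.exp_pos _).le, Real.exp_lt_one_iff]; linarith
    have hr2 : ‖Real.exp (t - w)‖ < 1 := by
      rw [Real.norm_of_nonneg (Real.exp_pos _).le, Real.exp_lt_one_iff]; linarith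
    exact ((summable_geometric_of_norm_lt_one hr).mul_left K).add
      ((summable_geometric_of_norm_lt_one hr2).mul_left _)
  have hg0 : ∀ n, 0 ≤ g n := fun n => by
    simp only [hg]; positivity
  have hN : ∀ N : ℕ, ∫ u in (0 : ℝ)..N, κ u * Real.exp (-(w * u)) ≤ ∑' n : ℕ, g n := by
    intro N
    have h1 : ∫ u in (0 : ℝ)..N, κ u * Real.exp (-(w * u)) =
        ∑ n ∈ Finset.range N, ∫ u in (n : ℝ)..((n + 1 : ℕ) : ℝ), κ u * Real.exp (-(w * u)) := by
      have := intervalIntegral.sum_integral_adjacent_intervals (μ := volume)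
        (f := fun u : ℝ => κ u * Real.exp (-(w * u))) (a := fun n : ℕ => (n : ℝ)) (n := N)
        (fun k _ => hcont.intervalIntegrable _ _)
      rw [this]
      simp
    rw [h1]
    refine le_trans (Finset.sum_le_sum fun n _ => ?_) (hgs.sum_le_tsum _ fun n _ => hg0 n)
    have h2 : ∫ u in (n : ℝ)..((n + 1 : ℕ) : ℝ), κ u * Real.exp (-(w * u)) ≤
        ∫ u in (n : ℝ)..((n + 1 : ℕ) : ℝ), κ u * Real.exp (-(w * n)) := by
      refine intervalIntegral.integral_mono_on (by push_cast; linarith) (hcont.intervalIntegrable _ _)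
        ((hκ.mul continuous_const).intervalIntegrable _ _) fun u hu => ?_
      refine mul_le_mul_of_nonneg_left (Real.exp_le_exp.2 ?_) (h0 u)
      have := mul_le_mul_of_nonneg_left hu.1 hw.le
      linarith
    rw [intervalIntegral.integral_mul_const] at h2
    have h3 : ∫ u in (n : ℝ)..((n + 1 : ℕ) : ℝ), κ u ≤ K + C * Real.exp (t * (n + 1)) := by
      have h4 := hb ((n + 1 : ℕ) : ℝ) (by positivity)
      have h5 := intervalIntegral.integral_add_adjacent_intervals (hκ.intervalIntegrable (μ := volume) 0 (n : ℝ))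
        (hκ.intervalIntegrable (μ := volume) (n : ℝ) ((n + 1 : ℕ) : ℝ))
      have h6 : 0 ≤ ∫ v in (0 : ℝ)..(n : ℝ), κ v := intervalIntegral.integral_nonneg (by positivity) fun v _ => h0 v
      push_cast at h4 h5 ⊢
      linarith
    have h7 : Real.exp (-(w * n)) = Real.exp (-w) ^ n := by
      rw [← Real.exp_nat_mul]
      congr 1
      ring
    have h8 : (K + C * Real.exp (t * (n + 1))) * Real.exp (-(w * n)) = g n := by
      simp only [hg]
      rw [add_mul, h7, mul_assoc, mul_assoc, ← h7]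
      congr 2
      rw [← Real.exp_nat_mul, ← Real.exp_add, ← Real.exp_add]
      congr 1
      ring
    rw [← h8]
    exact h2.trans (mul_le_mul_of_nonneg_right h3 (Real.exp_pos _).le)
  refine integrableOn_Ioi_of_intervalIntegral_norm_bounded (∑' n : ℕ, g n) 0 (b := fun n : ℕ => (n : ℝ)) (l := atTop)
    (fun n => hcont.integrableOn_Ioc) tendsto_natCast_atTop_atTop ?_
  refine Eventually.of_forall fun N => ?_
  refine le_trans (le_of_eq ?_) (hN N)
  refine intervalIntegral.integral_congr fun u _ => ?_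
  rw [Real.norm_of_nonneg (mul_nonneg (h0 u) (Real.exp_pos _).le)]

/-- **Landau's theorem, with an exponential bound** -/
theorem landau_exp {D : ℂ → ℂ} {S κ : ℝ → ℝ} {B θ : ℝ} (hθ : 0 ≤ θ) (pf : PF D) (hre : ∀ w, D w ≠ 0 → w.re ≤ 1 / 2)
    (hpos : ∀ x : ℝ, D x ≠ 0 → 0 < x → 0 < (D x).re ∧ (D x).im = 0) (hS : Measurable S) (hκ : Measurable κ)
    (hB : ∀ v : ℝ, 0 < v → ‖ZZ D v - S v‖ ≤ B) (hκi : ∀ w > θ, LInt κ w) (hle : ∀ v : ℝ, 0 < v → S v ≤ κ v) :
    ∀ w, D w ≠ 0 → w.re ≤ θ := by
  set D' : ℂ → ℂ := fun w => D (w + θ) with hD'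
  set S' : ℝ → ℝ := fun v => S v * Real.exp (-(θ * v)) with hS'
  set κ' : ℝ → ℝ := fun v => κ v * Real.exp (-(θ * v)) with hκ'
  have hZ : ∀ v : ℝ, ZZ D' v = ZZ D v * ((Real.exp (-(θ * v)) : ℝ) : ℂ) := by
    intro v
    unfold ZZ
    rw [← tsum_mul_right, ← (Equiv.addRight (θ : ℂ)).tsum_eq (fun w : ℂ => D w * Complex.exp (w * v) *
      ((Real.exp (-(θ * v)) : ℝ) : ℂ))]
    refine tsum_congr fun w => ?_
    simp only [hD', Equiv.coe_addRight]
    rw [mul_assoc, Complex.ofReal_exp, ← Complex.exp_add]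
    congr 2
    push_cast
    ring
  have L : LD D' S' κ' B := by
    refine ⟨⟨?_, fun R => ?_⟩, fun w hw => ?_, fun x hx hx0 => ?_, hS.mul (by fun_prop), hκ.mul (by fun_prop),
      fun v hv => ?_, fun w hw => ?_, fun v hv => ?_⟩
    · exact (Equiv.addRight (θ : ℂ)).summable_iff.2 pf.sum
    · refine Set.Finite.subset (((pf.fin (R + θ)).preimage (f := fun w : ℂ => w + θ)
        (fun x _ y _ h => add_right_cancel h))) fun w hw => ?_
      refine ⟨hw.1, (norm_add_le _ _).trans ?_⟩
      rw [Complex.norm_real, Real.norm_of_nonneg hθ]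
      linarith [hw.2]
    · have h1 := hre _ hw
      rw [Complex.add_re, Complex.ofReal_re] at h1
      linarith
    · have e : ((x : ℂ) + θ) = ((x + θ : ℝ) : ℂ) := by push_cast; ring
      simp only [hD', e] at hx ⊢
      exact hpos (x + θ) hx (by linarith)
    · rw [hZ]
      simp only [hS']
      rw [Complex.ofReal_mul, ← sub_mul, norm_mul, Complex.norm_real, Real.norm_of_nonneg (Real.exp_pos _).le]
      have h1 : Real.exp (-(θ * v)) ≤ 1 := by
        rw [Real.exp_le_one_iff]
        have := mul_nonneg hθ hv.le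
        linarith
      calc _ ≤ ‖ZZ D v - S v‖ * 1 := mul_le_mul_of_nonneg_left h1 (norm_nonneg _)
        _ ≤ _ := by rw [mul_one]; exact hB v hv
    · have h1 := hκi (w + θ) (by linarith)
      unfold LInt at h1 ⊢
      refine h1.congr_fun (fun u _ => ?_) measurableSet_Ioi
      simp only [hκ']
      rw [mul_assoc, ← Real.exp_add]
      congr 2
      ring
    · exact mul_le_mul_of_nonneg_right (hle v hv) (Real.exp_pos _).le
  intro w hw
  have h1 : D' (w - θ) ≠ 0 := by
    simp only [hD', sub_add_cancel]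
    exact hw
  have h2 := L.main _ h1
  rw [Complex.sub_re, Complex.ofReal_re] at h2
  linarith

end Pool.Agent.E8helper14.DL
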